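import Pool.Agent.Run7.h61.TA.Abs

/-!
# Mean values of Euler products of any weight past the edge of convergence: the theorem
-/

set_option autoImplicit false
set_option linter.unusedSectionVars false

namespace Run7.h61.TA

open NumberField IsDedekindDomain Finset Filter Topology
open Run7.h876.MM (nv kv two_le_nv nv_pos avg card_kv xv norm_xv instFieldKv instFintypeKv instDecKv
  norm_avg_le avg_sub' tail_bound tail_small mult_of tprod_ne hasProd_zeta xv_real SZ mem_SZ tprod_zpow')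
open Run7.h876.EN
open Run7.h876.HY (one_le_nv ell_diff ell_real zeta_ne hasProd_zpow' partialZeta partialZeta_eq)

section
variable {K : Type} [Field K] [NumberField K] {J : Type} [Fintype J] [DecidableEq J] (𝓐 : Fam K J)
variable {ι : Type} [Fintype ι] [DecidableEq ι] (ω : Module.Basis ι ℤ (𝓞 K))

theorem xv_lt {s : ℂ} (hs : 𝓐.h < s.re) (v : HeightOneSpectrum (𝓞 K)) : ‖xv v (s - 𝓐.h)‖ < 1 := by
  obtain ⟨g1, g2⟩ := y_le hs v le_rfl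
  rw [xv_shift, norm_mul, Complex.norm_real, Real.norm_of_nonneg (hQ0 v _).le]
  exact (g1.trans g2).trans_lt (y0_lt hs)

/-- The normalised power in terms of the Euler factor. -/
theorem exp_ex_eq (k : ℤ) {s : ℂ} (hs : 𝓐.h < s.re) (v : HeightOneSpectrum (𝓞 K)) (t : J → kv v) :
    Complex.exp (ex 𝓐 k v s t) = Complex.exp (ell (fun m => (𝓐.a v t m : ℂ)) (xv v s)) ^ k *
      (((1 - (nv v : ℂ) ^ (-(s - 𝓐.h)))⁻¹) ^ (k * 𝓐.R))⁻¹ := by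
  have h1 := xv_lt 𝓐 hs v
  unfold ex
  rw [sub_eq_add_neg, Complex.exp_add, Complex.exp_neg, Complex.exp_int_mul]
  congr 2
  have e : (k : ℂ) * (𝓐.R : ℂ) * ell (fun _ => 1) (xv v (s - 𝓐.h)) = ((k * 𝓐.R : ℤ) : ℂ) * ell (fun _ => 1) (xv v (s - 𝓐.h)) := by
    push_cast; ring
  rw [e, Complex.exp_int_mul, exp_ell_one h1]
  rfl

/-- the majorant in the region of convergence -/
noncomputable def u1 (n : ℂ) (σ : ℝ) (v : HeightOneSpectrum (𝓞 K)) : ℝ :=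
  (‖n‖ * 𝓐.D * (1 - 2 ^ (𝓐.h - σ))⁻¹) * Real.exp (‖n‖ * 𝓐.D * (1 - 2 ^ (𝓐.h - σ))⁻¹) * (nv v : ℝ) ^ (𝓐.h - σ)

theorem u1_summable (n : ℂ) {σ : ℝ} (hσ : 𝓐.h + 1 < σ) : Summable (u1 𝓐 n σ : HeightOneSpectrum (𝓞 K) → ℝ) := by
  unfold u1
  have h := (Pool.Agent.H921R2.TatePole.nm_summable (K := K) (x := σ - 𝓐.h) (by linarith)).mul_left
    ((‖n‖ * 𝓐.D * (1 - 2 ^ (𝓐.h - σ))⁻¹) * Real.exp (‖n‖ * 𝓐.D * (1 - 2 ^ (𝓐.h - σ))⁻¹))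
  refine h.congr fun v => ?_
  rw [Run7.h876.MM.nv_eq]
  congr 2
  ring

theorem exp_u1 (n : ℂ) {σ : ℝ} (hσ : 𝓐.h < σ) (v : HeightOneSpectrum (𝓞 K)) {s : ℂ} (hs : σ ≤ s.re)
    (t : J → kv v) : ‖Complex.exp (n * ell (fun m => (𝓐.a v t m : ℂ)) (xv v s)) - 1‖ ≤ u1 𝓐 n σ v := by
  have hD := 𝓐.hD
  have hw : 0 < (1 - (2 : ℝ) ^ (𝓐.h - σ))⁻¹ := inv_pos.2 (by linarith [y0_lt hσ])
  obtain ⟨g1, g2⟩ := y_le hσ v hs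
  have h1 := ell_le hD (hQ0 v _).le (norm_a_le 𝓐 v t) (g1.trans g2) (y0_lt hσ)
  set B := ‖n‖ * 𝓐.D * (1 - (2 : ℝ) ^ (𝓐.h - σ))⁻¹ with hB
  have hB0 : 0 ≤ B := by positivity
  have hY1 := Y_le_one 𝓐 hσ v
  have hY0 := (hQ0 v (𝓐.h - σ)).le
  obtain ⟨Y, hY⟩ : ∃ Y, Y = (nv v : ℝ) ^ (𝓐.h - σ) := ⟨_, rfl⟩
  unfold u1
  rw [← hB]
  rw [← hY] at hY1 hY0 g1 ⊢
  have h2 : ‖n * ell (fun m => (𝓐.a v t m : ℂ)) (xv v s)‖ ≤ B * Y := by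
    rw [norm_mul]
    calc ‖n‖ * ‖ell (fun m => (𝓐.a v t m : ℂ)) (xv v s)‖
        ≤ ‖n‖ * (𝓐.D * ((nv v : ℝ) ^ 𝓐.h * ‖xv v s‖) / (1 - 2 ^ (𝓐.h - σ))) := by gcongr
      _ ≤ ‖n‖ * (𝓐.D * Y * (1 - 2 ^ (𝓐.h - σ))⁻¹) := by
        rw [div_eq_mul_inv]
        gcongr
      _ = B * Y := by rw [hB]; ring
  have h3 : ‖n * ell (fun m => (𝓐.a v t m : ℂ)) (xv v s)‖ ≤ B := h2.trans (mul_le_of_le_one_right hB0 hY1)
  have h4 := Complex.norm_exp_sub_sum_le_norm_mul_exp (n * ell (fun m => (𝓐.a v t m : ℂ)) (xv v s)) 1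
  simp only [Finset.sum_range_one, pow_zero, Nat.factorial_zero, Nat.cast_one, div_one, pow_one] at h4
  refine h4.trans ?_
  calc ‖n * ell (fun m => (𝓐.a v t m : ℂ)) (xv v s)‖ * Real.exp ‖n * ell (fun m => (𝓐.a v t m : ℂ)) (xv v s)‖
      ≤ (B * Y) * Real.exp B := by gcongr
    _ = _ := by ring

variable (fac : (J → 𝓞 K) → HeightOneSpectrum (𝓞 K) → ℂ → ℂ)
  (hfac : ∀ t v s, fac t v s = Complex.exp (ell (fun m => (𝓐.a v (rd v t) m : ℂ)) (xv v s)))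

include hfac in
theorem LSeries_zpow (k : ℤ) {σ : ℝ} (hσ : 𝓐.h + 1 < σ) {s : ℂ} (hs : σ ≤ s.re) (t : J → 𝓞 K) :
    (∏' v, fac t v s) ^ k = ∏' v : HeightOneSpectrum (𝓞 K), Complex.exp (k * ell (fun m => (𝓐.a v (rd v t) m : ℂ)) (xv v s)) := by
  have h1 : ∀ v, fac t v s = Complex.exp (ell (fun m => (𝓐.a v (rd v t) m : ℂ)) (xv v s)) := fun v => hfac t v s
  rw [tprod_congr h1, tprod_zpow' (u1_summable 𝓐 1 hσ) (fun v => by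
    have := exp_u1 𝓐 1 (by linarith : 𝓐.h < σ) v hs (rd v t)
    rwa [one_mul] at this) (fun v => Complex.exp_ne_zero _) k]
  exact tprod_congr fun v => (Complex.exp_int_mul _ _).symm

theorem mv_eq (k : ℤ) {s : ℂ} (hs : 𝓐.h < s.re) (v : HeightOneSpectrum (𝓞 K)) :
    avg Finset.univ (fun t : J → kv v => Complex.exp (k * ell (fun m => (𝓐.a v t m : ℂ)) (xv v s))) =
      ((1 - (nv v : ℂ) ^ (-(s - 𝓐.h)))⁻¹) ^ (k * (𝓐.R : ℤ)) * hv 𝓐 k v s := by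
  have h1 := xv_lt 𝓐 hs v
  have n1 : (1 - (nv v : ℂ) ^ (-(s - 𝓐.h)))⁻¹ ≠ 0 := by
    rw [← show Complex.exp (ell (fun _ => 1) (xv v (s - 𝓐.h))) = (1 - (nv v : ℂ) ^ (-(s - 𝓐.h)))⁻¹ from exp_ell_one h1]
    exact Complex.exp_ne_zero _
  unfold hv
  rw [show (fun t : J → kv v => Complex.exp (ex 𝓐 k v s t)) = fun t => Complex.exp (k * ell (fun m => (𝓐.a v t m : ℂ)) (xv v s)) *
      (((1 - (nv v : ℂ) ^ (-(s - 𝓐.h)))⁻¹) ^ (k * (𝓐.R : ℤ)))⁻¹ from by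
    funext t
    rw [exp_ex_eq 𝓐 k hs, Complex.exp_int_mul]]
  unfold avg
  rw [← Finset.sum_mul]
  have n3 := zpow_ne_zero (k * (𝓐.R : ℤ)) n1
  generalize ((1 - (nv v : ℂ) ^ (-(s - 𝓐.h)))⁻¹) ^ (k * (𝓐.R : ℤ)) = A at n3 ⊢
  field_simp

theorem tprod_mv (k : ℤ) {s : ℂ} (hs : 𝓐.h + 1 < s.re) :
    ∏' v : HeightOneSpectrum (𝓞 K), avg Finset.univ (fun t : J → kv v => Complex.exp (k * ell (fun m => (𝓐.a v t m : ℂ)) (xv v s))) =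
      dedekindZeta K (s - 𝓐.h) ^ (k * (𝓐.R : ℤ)) * GG 𝓐 k s := by
  have hs2 : 1 < (s - (𝓐.h : ℂ)).re := by simp; linarith
  have h1 := hasProd_zpow' (hasProd_zeta (K := K) hs2) (zeta_ne hs2) (k * (𝓐.R : ℤ))
  obtain ⟨u, hu, hub⟩ := exists_u 𝓐 (σ := s.re) (by linarith) (norm_nonneg (k : ℂ))
  have h4 := (mult_of hu (fun v => hub v k s le_rfl le_rfl)).hasProd
  have h5 := h1.mul h4
  refine HasProd.tprod_eq (h5.congr_fun fun v => ?_)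
  rw [mv_eq 𝓐 k (by linarith) v]

include hfac in
/-- **The moments in the region of convergence.** -/
theorem part1 {G : Set (J → 𝓞 K)} {Cb : ℝ} (hG : Thin ω G Cb) (k : ℤ) {δ : ℝ} (hδ : 0 < δ) {ε : ℝ} (hε : 0 < ε) :
    ∃ M : ℕ, ∀ H : J → ℕ, (∀ j, M ≤ H j) → ∀ s : ℂ, 𝓐.h + 1 + δ ≤ s.re →
      ‖mean ω H G (fun t => (∏' v, fac t v s) ^ k) -
        dedekindZeta K (s - 𝓐.h) ^ (k * (𝓐.R : ℤ)) * GG 𝓐 k s‖ ≤ ε := by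
  obtain ⟨M, hM⟩ := meanA (P := {s : ℂ // 𝓐.h + 1 + δ ≤ s.re}) ω hG (u1 𝓐 k (𝓐.h + 1 + δ)) (u1_summable 𝓐 k (by linarith))
    (fun v p t => Complex.exp (k * ell (fun m => (𝓐.a v t m : ℂ)) (xv v p.1)))
    (fun v p t => exp_u1 𝓐 k (by linarith) v p.2 t) hε
  refine ⟨M, fun H hH s hs => ?_⟩
  have h := hM H hH ⟨s, hs⟩
  simp only at h
  rw [tprod_mv 𝓐 k (by linarith : 𝓐.h + 1 < s.re)] at h
  have e : (fun t => (∏' v, fac t v s) ^ k) =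
      fun t => ∏' v : HeightOneSpectrum (𝓞 K), Complex.exp (k * ell (fun m => (𝓐.a v (rd v t) m : ℂ)) (xv v s)) := by
    funext t
    exact LSeries_zpow 𝓐 fac hfac k (by linarith : 𝓐.h + 1 < 𝓐.h + 1 + δ) hs t
  rw [e]
  exact h

theorem mean_mul_const (H : J → ℕ) (G : Set (J → 𝓞 K)) (F : (J → 𝓞 K) → ℂ) (c : ℂ) :
    mean ω H G (fun t => F t * c) = mean ω H G F * c := by
  unfold mean
  rw [← Finset.sum_mul]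
  ring

open Classical in
include hfac in
/-- **The moments of the partial Euler products past the edge of convergence.** -/
theorem part2 {G : Set (J → 𝓞 K)} {Cb : ℝ} (hCb : 0 ≤ Cb) (hG : Thin ω G Cb) (k : ℤ) {σ : ℝ} (hσ : 𝓐.h + 1 / 2 < σ)
    {θ : ℝ} (hθ : 0 < θ) {ε : ℝ} (hε : 0 < ε) :
    ∃ Z₀ : ℕ, ∀ Z : ℕ, Z₀ ≤ Z → ∀ H : J → ℕ, (∀ j, Real.exp ((Z : ℝ) ^ (1 + θ)) ≤ H j) → ∀ s : ℂ, σ ≤ s.re →
      ‖mean ω H G (fun t => (∏' v, if nv v ≤ Z then fac t v s else 1) ^ k) *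
        (partialZeta K Z (s - 𝓐.h) ^ (k * (𝓐.R : ℤ)))⁻¹ - GG 𝓐 k s‖ ≤ ε := by
  have hσ2 : 𝓐.h < σ := by linarith
  obtain ⟨u, hu, hub⟩ := exists_u 𝓐 hσ (norm_nonneg (k : ℂ))
  obtain ⟨Z₀, hZ₀⟩ := meanB (P := {s : ℂ // σ ≤ s.re}) ω hCb hG u hu
    (fun v p t => Complex.exp (ex 𝓐 k v p.1 t)) (D := Real.exp (A0 𝓐 ‖(k : ℂ)‖ σ))
    (Real.one_le_exp (A0_nonneg 𝓐 (norm_nonneg _) hσ2)) (fun v p t => exp_ex_le 𝓐 (norm_nonneg _) hσ2 le_rfl v p.2 t)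
    (fun v p => hub v k p.1 le_rfl p.2) hθ hε
  refine ⟨Z₀, fun Z hZ H hH s hs => ?_⟩
  have h := hZ₀ Z hZ H hH ⟨s, hs⟩
  have e : (fun t : J → 𝓞 K => ∏ v ∈ SZ K Z, Complex.exp (ex 𝓐 k v s (rd v t))) =
      fun t => (∏' v, if nv v ≤ Z then fac t v s else 1) ^ k * (partialZeta K Z (s - 𝓐.h) ^ (k * (𝓐.R : ℤ)))⁻¹ := by
    funext t
    have e1 : (∏' v, if nv v ≤ Z then fac t v s else 1) = ∏ v ∈ SZ K Z, fac t v s := by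
      rw [tprod_eq_prod (s := SZ K Z) (fun v hv => if_neg fun h => hv (mem_SZ.2 h))]
      exact Finset.prod_congr rfl fun v hv => if_pos (mem_SZ.1 hv)
    rw [e1, partialZeta_eq, ← Finset.prod_zpow, ← Finset.prod_zpow, ← Finset.prod_inv_distrib, ← Finset.prod_mul_distrib]
    refine Finset.prod_congr rfl fun v _ => ?_
    rw [exp_ex_eq 𝓐 k (by linarith : 𝓐.h < s.re), hfac]
  simp only at h
  rw [e, mean_mul_const] at h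
  exact h

open Classical in
include hfac in
/-- **The abstract theorem.** -/
theorem abstract {G₀ : Set (J → 𝓞 K)}
    (hG : ∀ (ι : Type) [Fintype ι] [DecidableEq ι] (ω : Module.Basis ι ℤ (𝓞 K)), ∃ Cb : ℝ, 0 ≤ Cb ∧ Thin ω G₀ Cb) (k : ℤ) :
    ∃ G : ℂ → ℂ, DifferentiableOn ℂ G {s | 𝓐.h + 1 / 2 < s.re} ∧
      (∀ x : ℝ, 𝓐.h + 1 / 2 < x → ∃ r : ℝ, 0 < r ∧ G x = r) ∧
      (∃ c : ℝ, 0 < c ∧ Tendsto (fun x : ℝ => ((x : ℂ) - (𝓐.h + 1)) ^ (k * (𝓐.R : ℤ)) *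
        (dedekindZeta K (x - 𝓐.h) ^ (k * (𝓐.R : ℤ)) * G x)) (𝓝[>] (𝓐.h + 1)) (𝓝 (c : ℂ))) ∧
      ∀ (ι : Type) [Fintype ι] [DecidableEq ι] (ω : Module.Basis ι ℤ (𝓞 K)),
        (∀ δ : ℝ, 0 < δ → ∀ ε : ℝ, 0 < ε → ∃ M : ℕ, ∀ H : J → ℕ, (∀ j, M ≤ H j) →
          ∀ s : ℂ, 𝓐.h + 1 + δ ≤ s.re →
          ‖mean ω H G₀ (fun t => (∏' v, fac t v s) ^ k) -
            dedekindZeta K (s - 𝓐.h) ^ (k * (𝓐.R : ℤ)) * G s‖ ≤ ε) ∧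
        (∀ σ : ℝ, 𝓐.h + 1 / 2 < σ → ∀ θ : ℝ, 0 < θ → ∀ ε : ℝ, 0 < ε → ∃ Z₀ : ℕ, ∀ Z : ℕ, Z₀ ≤ Z →
          ∀ H : J → ℕ, (∀ j, Real.exp ((Z : ℝ) ^ (1 + θ)) ≤ H j) → ∀ s : ℂ, σ ≤ s.re →
          ‖mean ω H G₀ (fun t => (∏' v, if nv v ≤ Z then fac t v s else 1) ^ k) *
            (partialZeta K Z (s - 𝓐.h) ^ (k * (𝓐.R : ℤ)))⁻¹ - G s‖ ≤ ε) := by
  have h1 : ∀ x : ℝ, 𝓐.h + 1 / 2 < x → ∃ r : ℝ, 0 < r ∧ GG 𝓐 k x = r := fun x hx => by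
    have := GG_real 𝓐 (k : ℝ) hx
    simpa using this
  refine ⟨GG 𝓐 k, GG_diff 𝓐 k, h1, edge (GG_diff 𝓐 k) h1 _, fun ι _ _ ω => ?_⟩
  obtain ⟨Cb, hCb, hT⟩ := hG ι ω
  exact ⟨fun δ hδ ε hε => part1 𝓐 ω fac hfac hT k hδ hε, fun σ hσ θ hθ ε hε => part2 𝓐 ω fac hfac hCb hT k hσ hθ hε⟩

end

end Run7.h61.TA
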