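import Pool.Agent.Run7.h876.HY.Main

/-!
# Mean values of Euler products of any weight past the edge of convergence

`K` is a number field. For every place `v` a function `a v t m` of the residues `t` of the parameters
is given (the trace of the `(m+1)`-st power of the Frobenius on a cohomology group of weight `2 h`),
the mean value of `a v · 0` is `R Nv^h + O(Nv^(h - 1/2))`. Then the mean value over the boxes of the
`k`-th power of the Euler product is `ζ_K(s - h)^(k R) G(s)` with `G` holomorphic for `Re s > h + 1/2`.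
-/

set_option autoImplicit false
set_option linter.unusedSectionVars false

namespace Run7.h61.TA

open NumberField IsDedekindDomain Finset Filter Topology
open Run7.h876.MM (nv kv two_le_nv nv_pos avg card_kv xv norm_xv instFieldKv instFintypeKv instDecKv
  norm_avg_le avg_sub' tail_bound tail_small mult_of tprod_ne hasProd_zeta xv_real SZ mem_SZ tprod_zpow')
open Run7.h876.EN
open Run7.h876.HY (one_le_nv ell_diff ell_real zeta_ne hasProd_zpow' partialZeta partialZeta_eq)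

/-- A family of Euler products. -/
structure Fam (K : Type) [Field K] [NumberField K] (J : Type) [Fintype J] [DecidableEq J] where
  a : ∀ v : HeightOneSpectrum (𝓞 K), (J → kv v) → ℕ → ℝ
  h : ℝ
  D : ℝ
  C : ℝ
  R : ℕ
  B : Set (HeightOneSpectrum (𝓞 K))
  hh : 0 ≤ h
  hD : 0 ≤ D
  hC : 0 ≤ C
  fin : B.Finite
  le : ∀ v t m, |a v t m| ≤ D * ((nv v : ℝ) ^ h) ^ (m + 1)
  mom : ∀ v, v ∉ B → |(∑ t, a v t 0) / (Fintype.card (J → kv v) : ℝ) - R * (nv v : ℝ) ^ h| ≤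
    C * (nv v : ℝ) ^ (h - 1 / 2)

section
variable {K : Type} [Field K] [NumberField K] {J : Type} [Fintype J] [DecidableEq J] (𝓐 : Fam K J)

/-- the exponent of the normalised local factor -/
noncomputable def ex (k : ℂ) (v : HeightOneSpectrum (𝓞 K)) (s : ℂ) (t : J → kv v) : ℂ :=
  k * ell (fun m => (𝓐.a v t m : ℂ)) (xv v s) - k * 𝓐.R * ell (fun _ => 1) (xv v (s - 𝓐.h))

/-- the normalised local mean -/
noncomputable def hv (k : ℂ) (v : HeightOneSpectrum (𝓞 K)) (s : ℂ) : ℂ :=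
  avg Finset.univ (fun t => Complex.exp (ex 𝓐 k v s t))

/-- the limit function -/
noncomputable def GG (k : ℂ) (s : ℂ) : ℂ := ∏' v : HeightOneSpectrum (𝓞 K), hv 𝓐 k v s

theorem xv_shift (v : HeightOneSpectrum (𝓞 K)) (s : ℂ) (h : ℝ) :
    xv v (s - h) = (((nv v : ℝ) ^ h : ℝ) : ℂ) * xv v s := by
  unfold xv
  have h1 := nv_pos v
  have h2 : ((nv v : ℂ)) ≠ 0 := by exact_mod_cast h1.ne'
  rw [Complex.ofReal_cpow h1.le, show -(s - (h : ℂ)) = (h : ℂ) + -s from by ring, Complex.cpow_add _ _ h2]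
  push_cast
  rfl

theorem norm_shift (v : HeightOneSpectrum (𝓞 K)) (s : ℂ) (h : ℝ) :
    (nv v : ℝ) ^ h * ‖xv v s‖ = (nv v : ℝ) ^ (h - s.re) := by
  rw [norm_xv, ← Real.rpow_add (nv_pos v)]
  ring_nf

theorem y_le {h σ : ℝ} (hσ : h < σ) (v : HeightOneSpectrum (𝓞 K)) {s : ℂ} (hs : σ ≤ s.re) :
    (nv v : ℝ) ^ h * ‖xv v s‖ ≤ (nv v : ℝ) ^ (h - σ) ∧ (nv v : ℝ) ^ (h - σ) ≤ 2 ^ (h - σ) := by
  have h2 : (2 : ℝ) ≤ nv v := by exact_mod_cast two_le_nv v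
  rw [norm_shift]
  exact ⟨Real.rpow_le_rpow_of_exponent_le (by linarith) (by linarith),
    Real.rpow_le_rpow_of_nonpos (by norm_num) h2 (by linarith)⟩

theorem y0_lt {h σ : ℝ} (hσ : h < σ) : (2 : ℝ) ^ (h - σ) < 1 :=
  Real.rpow_lt_one_of_one_lt_of_neg (by norm_num) (by linarith)

/-- the constant of the exponents -/
noncomputable def A0 (r σ : ℝ) : ℝ := r * (𝓐.D + 𝓐.R) * (1 - 2 ^ (𝓐.h - σ))⁻¹

theorem A0_nonneg {r σ : ℝ} (hr : 0 ≤ r) (hσ : 𝓐.h < σ) : 0 ≤ A0 𝓐 r σ := by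
  have h1 : 0 < (1 - (2 : ℝ) ^ (𝓐.h - σ))⁻¹ := inv_pos.2 (by linarith [y0_lt hσ])
  have := 𝓐.hD
  unfold A0
  positivity

theorem hQ0 (v : HeightOneSpectrum (𝓞 K)) (h : ℝ) : 0 < (nv v : ℝ) ^ h := Real.rpow_pos_of_pos (nv_pos v) h

theorem norm_a_le (v : HeightOneSpectrum (𝓞 K)) (t : J → kv v) (m : ℕ) :
    ‖((𝓐.a v t m : ℝ) : ℂ)‖ ≤ 𝓐.D * ((nv v : ℝ) ^ 𝓐.h) ^ (m + 1) := by
  rw [Complex.norm_real]
  exact 𝓐.le v t m

/-- **The exponents.** -/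
theorem ex_bounds {r σ : ℝ} (hr : 0 ≤ r) (hσ : 𝓐.h < σ) {k : ℂ} (hk : ‖k‖ ≤ r) (v : HeightOneSpectrum (𝓞 K)) {s : ℂ}
    (hs : σ ≤ s.re) (t : J → kv v) :
    ‖ex 𝓐 k v s t‖ ≤ A0 𝓐 r σ * (nv v : ℝ) ^ (𝓐.h - σ) ∧
    ‖ex 𝓐 k v s t - (k * 𝓐.a v t 0 * xv v s - k * 𝓐.R * xv v (s - 𝓐.h))‖ ≤
      A0 𝓐 r σ * ((nv v : ℝ) ^ (𝓐.h - σ)) ^ 2 := by
  obtain ⟨g1, g2⟩ := y_le hσ v hs
  have hy0 := y0_lt hσ
  obtain ⟨w, hw⟩ : ∃ w, w = (1 - (2 : ℝ) ^ (𝓐.h - σ))⁻¹ := ⟨_, rfl⟩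
  have hw0 : 0 < w := by rw [hw]; exact inv_pos.2 (by linarith)
  obtain ⟨Q, hQ⟩ : ∃ Q, Q = (nv v : ℝ) ^ 𝓐.h := ⟨_, rfl⟩
  have hQp : 0 < Q := by rw [hQ]; exact hQ0 v _
  obtain ⟨Y, hY⟩ : ∃ Y, Y = (nv v : ℝ) ^ (𝓐.h - σ) := ⟨_, rfl⟩
  rw [← hQ, ← hY] at g1
  rw [← hY] at g2 ⊢
  have hy : Q * ‖xv v s‖ ≤ 2 ^ (𝓐.h - σ) := g1.trans g2
  have hD := 𝓐.hD
  have ha := norm_a_le 𝓐 v t
  rw [← hQ] at ha
  have hyn : 0 ≤ Q * ‖xv v s‖ := by positivity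
  have hsh : ‖xv v (s - 𝓐.h)‖ = Q * ‖xv v s‖ := by
    rw [xv_shift, norm_mul, Complex.norm_real, Real.norm_of_nonneg (hQ0 v _).le, hQ]
  have hX1 : 1 * ‖xv v (s - 𝓐.h)‖ ≤ 2 ^ (𝓐.h - σ) := by rw [one_mul, hsh]; exact hy
  have b1 := ell_le hD hQp.le ha hy hy0
  have b2 := ell_tail hD hQp.le ha hy hy0 1
  have c1 := ell_le (a := fun _ => (1 : ℂ)) (D := 1) (Q := 1) zero_le_one zero_le_one one_bound hX1 hy0
  have c2 := ell_tail (a := fun _ => (1 : ℂ)) (D := 1) (Q := 1) zero_le_one zero_le_one one_bound hX1 hy0 1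
  rw [div_eq_mul_inv, ← hw] at b1 b2 c1 c2
  rw [one_mul, one_mul, hsh] at c1 c2
  simp only [Finset.sum_range_one, zero_add, pow_one, one_mul, Nat.cast_zero, div_one] at b2 c2
  have hR : (0 : ℝ) ≤ 𝓐.R := by positivity
  have hRn : ‖((𝓐.R : ℕ) : ℂ)‖ = 𝓐.R := by rw [Complex.norm_natCast]
  constructor
  · unfold ex
    refine (norm_sub_le _ _).trans ?_
    rw [norm_mul, norm_mul, norm_mul, hRn]
    have e1 : ‖k‖ * ‖ell (fun m => ((𝓐.a v t m : ℝ) : ℂ)) (xv v s)‖ ≤ r * (𝓐.D * Y * w) := by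
      refine mul_le_mul hk (b1.trans ?_) (norm_nonneg _) hr
      exact mul_le_mul_of_nonneg_right (mul_le_mul_of_nonneg_left g1 hD) hw0.le
    have e2 : ‖k‖ * (𝓐.R : ℝ) * ‖ell (fun _ => 1) (xv v (s - 𝓐.h))‖ ≤ r * 𝓐.R * (Y * w) := by
      refine mul_le_mul (mul_le_mul_of_nonneg_right hk hR) (c1.trans ?_) (norm_nonneg _) (by positivity)
      exact mul_le_mul_of_nonneg_right g1 hw0.le
    refine (add_le_add e1 e2).trans (le_of_eq ?_)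
    unfold A0
    rw [← hw]
    ring
  · have e : ex 𝓐 k v s t - (k * 𝓐.a v t 0 * xv v s - k * 𝓐.R * xv v (s - 𝓐.h)) =
        k * (ell (fun m => ((𝓐.a v t m : ℝ) : ℂ)) (xv v s) - (𝓐.a v t 0 : ℂ) * xv v s) -
        k * 𝓐.R * (ell (fun _ => 1) (xv v (s - 𝓐.h)) - xv v (s - 𝓐.h)) := by
      unfold ex
      ring
    rw [e]
    refine (norm_sub_le _ _).trans ?_
    rw [norm_mul, norm_mul, norm_mul, hRn]
    have hsq : (Q * ‖xv v s‖) ^ 2 ≤ Y ^ 2 := pow_le_pow_left₀ hyn g1 2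
    have e1 : ‖k‖ * ‖ell (fun m => ((𝓐.a v t m : ℝ) : ℂ)) (xv v s) - (𝓐.a v t 0 : ℂ) * xv v s‖ ≤ r * (𝓐.D * Y ^ 2 * w) := by
      refine mul_le_mul hk (b2.trans ?_) (norm_nonneg _) hr
      exact mul_le_mul_of_nonneg_right (mul_le_mul_of_nonneg_left hsq hD) hw0.le
    have e2 : ‖k‖ * (𝓐.R : ℝ) * ‖ell (fun _ => 1) (xv v (s - 𝓐.h)) - xv v (s - 𝓐.h)‖ ≤ r * 𝓐.R * (Y ^ 2 * w) := by
      refine mul_le_mul (mul_le_mul_of_nonneg_right hk hR) (c2.trans ?_) (norm_nonneg _) (by positivity)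
      exact mul_le_mul_of_nonneg_right hsq hw0.le
    refine (add_le_add e1 e2).trans (le_of_eq ?_)
    unfold A0
    rw [← hw]
    ring

theorem Y_le_one {σ : ℝ} (hσ : 𝓐.h < σ) (v : HeightOneSpectrum (𝓞 K)) : (nv v : ℝ) ^ (𝓐.h - σ) ≤ 1 :=
  ((y_le hσ v (s := (σ : ℂ)) (by simp)).2).trans (y0_lt hσ).le

theorem ex_le {r σ : ℝ} (hr : 0 ≤ r) (hσ : 𝓐.h < σ) {k : ℂ} (hk : ‖k‖ ≤ r) (v : HeightOneSpectrum (𝓞 K)) {s : ℂ}
    (hs : σ ≤ s.re) (t : J → kv v) : ‖ex 𝓐 k v s t‖ ≤ A0 𝓐 r σ :=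
  (ex_bounds 𝓐 hr hσ hk v hs t).1.trans (mul_le_of_le_one_right (A0_nonneg 𝓐 hr hσ) (Y_le_one 𝓐 hσ v))

theorem exp_ex_le {r σ : ℝ} (hr : 0 ≤ r) (hσ : 𝓐.h < σ) {k : ℂ} (hk : ‖k‖ ≤ r) (v : HeightOneSpectrum (𝓞 K)) {s : ℂ}
    (hs : σ ≤ s.re) (t : J → kv v) : ‖Complex.exp (ex 𝓐 k v s t)‖ ≤ Real.exp (A0 𝓐 r σ) := by
  rw [Complex.norm_exp]
  exact Real.exp_le_exp.2 (((Complex.re_le_norm _)).trans (ex_le 𝓐 hr hσ hk v hs t))

theorem exp_expand {z L : ℂ} {A y : ℝ} (hA : 0 ≤ A) (_hy0 : 0 ≤ y) (hy1 : y ≤ 1) (hz : ‖z‖ ≤ A * y) (hE : ‖z - L‖ ≤ A * y ^ 2) :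
    ‖Complex.exp z - (1 + L)‖ ≤ (A ^ 2 * Real.exp A + A) * y ^ 2 := by
  have h := Complex.norm_exp_sub_sum_le_norm_mul_exp z 2
  have e : ∑ m ∈ range 2, z ^ m / (m.factorial : ℂ) = 1 + z := by
    simp [Finset.sum_range_succ]
  rw [e] at h
  have hzA : ‖z‖ ≤ A := hz.trans (mul_le_of_le_one_right hA hy1)
  have h1 : ‖Complex.exp z - (1 + z)‖ ≤ A ^ 2 * Real.exp A * y ^ 2 := by
    refine h.trans ?_
    calc ‖z‖ ^ 2 * Real.exp ‖z‖ ≤ (A * y) ^ 2 * Real.exp A := by gcongr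
      _ = _ := by ring
  have e2 : Complex.exp z - (1 + L) = (Complex.exp z - (1 + z)) + (z - L) := by ring
  rw [e2]
  refine (norm_add_le _ _).trans ((add_le_add h1 hE).trans (le_of_eq ?_))
  ring

/-- the first order term of the local mean -/
theorem avg_lin {σ : ℝ} {k : ℂ} (v : HeightOneSpectrum (𝓞 K)) (hv : v ∉ 𝓐.B) {s : ℂ}
    (hs : σ ≤ s.re) :
    ‖avg Finset.univ (fun t => 1 + (k * 𝓐.a v t 0 * xv v s - k * 𝓐.R * xv v (s - 𝓐.h))) - 1‖ ≤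
      ‖k‖ * 𝓐.C * (nv v : ℝ) ^ (-(σ + 1 / 2 - 𝓐.h)) := by
  have h1 := 𝓐.mom v hv
  have hcard : (Fintype.card (J → kv v) : ℂ) ≠ 0 := by
    have : 0 < Fintype.card (J → kv v) := Fintype.card_pos
    exact_mod_cast this.ne'
  have e : avg Finset.univ (fun t => 1 + (k * 𝓐.a v t 0 * xv v s - k * 𝓐.R * xv v (s - 𝓐.h))) - 1 =
      k * xv v s * (((∑ t, 𝓐.a v t 0) / (Fintype.card (J → kv v) : ℝ) - 𝓐.R * (nv v : ℝ) ^ 𝓐.h : ℝ) : ℂ) := by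
    unfold avg
    rw [xv_shift]
    have g : ∀ t, 1 + (k * (𝓐.a v t 0 : ℂ) * xv v s - k * 𝓐.R * ((((nv v : ℝ) ^ 𝓐.h : ℝ) : ℂ) * xv v s)) =
      (1 - k * 𝓐.R * ((((nv v : ℝ) ^ 𝓐.h : ℝ) : ℂ) * xv v s)) + k * xv v s * (𝓐.a v t 0 : ℂ) := fun t => by ring
    rw [Finset.sum_congr rfl fun t _ => g t, Finset.sum_add_distrib, Finset.sum_const, nsmul_eq_mul, ← Finset.mul_sum,
      Finset.card_univ]
    push_cast
    field_simp
    ring
  rw [e, norm_mul, norm_mul, Complex.norm_real, Real.norm_eq_abs, norm_xv]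
  have hnv := nv_pos v
  calc ‖k‖ * (nv v : ℝ) ^ (-s.re) * |(∑ t, 𝓐.a v t 0) / (Fintype.card (J → kv v) : ℝ) - 𝓐.R * (nv v : ℝ) ^ 𝓐.h|
      ≤ ‖k‖ * (nv v : ℝ) ^ (-σ) * (𝓐.C * (nv v : ℝ) ^ (𝓐.h - 1 / 2)) := by
        refine mul_le_mul (mul_le_mul_of_nonneg_left ?_ (norm_nonneg _)) h1 (abs_nonneg _) (by positivity)
        exact Real.rpow_le_rpow_of_exponent_le (one_le_nv v) (by linarith)
    _ = ‖k‖ * 𝓐.C * ((nv v : ℝ) ^ (-σ) * (nv v : ℝ) ^ (𝓐.h - 1 / 2)) := by ring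
    _ = _ := by rw [← Real.rpow_add hnv]; ring_nf

open Classical in
/-- **The majorant.** -/
theorem exists_u {σ : ℝ} (hσ : 𝓐.h + 1 / 2 < σ) {r : ℝ} (hr : 0 ≤ r) :
    ∃ u : HeightOneSpectrum (𝓞 K) → ℝ, Summable u ∧
    ∀ (v : HeightOneSpectrum (𝓞 K)) (k s : ℂ), ‖k‖ ≤ r → σ ≤ s.re → ‖hv 𝓐 k v s - 1‖ ≤ u v := by
  have hσ2 : 𝓐.h < σ := by linarith
  have hA := A0_nonneg 𝓐 hr hσ2
  obtain ⟨A, hAd⟩ : ∃ A, A = A0 𝓐 r σ := ⟨_, rfl⟩
  rw [← hAd] at hA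
  have hC := 𝓐.hC
  set D : ℝ := Real.exp A + 1 with hD
  have hD0 : 0 ≤ D := by positivity
  refine ⟨fun v => (r * 𝓐.C * (nv v : ℝ) ^ (-(σ + 1 / 2 - 𝓐.h)) +
    (A ^ 2 * Real.exp A + A) * (nv v : ℝ) ^ (-(2 * (σ - 𝓐.h)))) + (if v ∈ 𝓐.B then D else 0), ?_, ?_⟩
  · refine Summable.add (Summable.add ?_ ?_) ?_
    · exact (Pool.Agent.H921R2.TatePole.nm_summable (K := K) (x := σ + 1 / 2 - 𝓐.h) (by linarith)).mul_left _
    · exact (Pool.Agent.H921R2.TatePole.nm_summable (K := K) (x := 2 * (σ - 𝓐.h)) (by linarith)).mul_left _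
    · refine summable_of_hasFiniteSupport (𝓐.fin.subset fun v hv => ?_)
      by_contra hc
      apply hv
      exact if_neg hc
  · intro v k s hk hs
    have hnv := nv_pos v
    have h1nv := one_le_nv v
    by_cases hbad : v ∈ 𝓐.B
    · simp only [if_pos hbad]
      have h1 : ‖hv 𝓐 k v s - 1‖ ≤ D := by
        refine (norm_sub_le _ _).trans ?_
        rw [norm_one, hD]
        refine add_le_add_left ?_ _
        refine norm_avg_le _ _ _ (Real.exp_pos _).le fun t _ => ?_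
        rw [hAd]
        exact exp_ex_le 𝓐 hr hσ2 hk v hs t
      have h2 : 0 ≤ r * 𝓐.C * (nv v : ℝ) ^ (-(σ + 1 / 2 - 𝓐.h)) +
        (A ^ 2 * Real.exp A + A) * (nv v : ℝ) ^ (-(2 * (σ - 𝓐.h))) := by positivity
      linarith
    · simp only [if_neg hbad, add_zero]
      have h1 := avg_lin 𝓐 (k := k) v hbad hs
      obtain ⟨mA, hmA⟩ : ∃ z, z = avg Finset.univ (fun t => 1 + (k * 𝓐.a v t 0 * xv v s - k * 𝓐.R * xv v (s - 𝓐.h))) :=
        ⟨_, rfl⟩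
      rw [← hmA] at h1
      have hY : ((nv v : ℝ) ^ (𝓐.h - σ)) ^ 2 = (nv v : ℝ) ^ (-(2 * (σ - 𝓐.h))) := by
        rw [← Real.rpow_natCast, ← Real.rpow_mul hnv.le]
        push_cast
        ring_nf
      have h2 : ‖hv 𝓐 k v s - mA‖ ≤ (A ^ 2 * Real.exp A + A) * (nv v : ℝ) ^ (-(2 * (σ - 𝓐.h))) := by
        unfold hv
        rw [hmA, avg_sub']
        refine norm_avg_le _ _ _ (by positivity) fun t _ => ?_
        obtain ⟨e1, e2⟩ := ex_bounds 𝓐 hr hσ2 hk v hs t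
        rw [← hAd] at e1 e2
        have := exp_expand hA (hQ0 v _).le (Y_le_one 𝓐 hσ2 v) e1 e2
        rwa [hY] at this
      have e : hv 𝓐 k v s - 1 = (hv 𝓐 k v s - mA) + (mA - 1) := by ring
      rw [e]
      refine (norm_add_le _ _).trans ?_
      have h3 : ‖k‖ * 𝓐.C * (nv v : ℝ) ^ (-(σ + 1 / 2 - 𝓐.h)) ≤ r * 𝓐.C * (nv v : ℝ) ^ (-(σ + 1 / 2 - 𝓐.h)) := by gcongr
      linarith

/-! ### holomorphy -/

theorem ex_diff {σ : ℝ} (hσ : 𝓐.h < σ) (k : ℂ) (v : HeightOneSpectrum (𝓞 K)) (t : J → kv v) {s : ℂ}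
    (hs : σ ≤ s.re) : DifferentiableAt ℂ (fun s => ex 𝓐 k v s t) s := by
  have hx := Run7.h876.MM.xv_diff v s
  obtain ⟨g1, g2⟩ := y_le hσ v hs
  have hy : (nv v : ℝ) ^ 𝓐.h * ‖xv v s‖ < 1 := (g1.trans g2).trans_lt (y0_lt hσ)
  have hsh : 1 * ‖xv v (s - 𝓐.h)‖ < 1 := by
    rw [one_mul, xv_shift, norm_mul, Complex.norm_real, Real.norm_of_nonneg (hQ0 v _).le]
    exact hy
  have d1 : DifferentiableAt ℂ (fun s => ell (fun m => (𝓐.a v t m : ℂ)) (xv v s)) s :=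
    DifferentiableAt.comp s (ell_diff 𝓐.hD (hQ0 v _).le (norm_a_le 𝓐 v t) hy) hx
  have hx2 : DifferentiableAt ℂ (fun s => xv v (s - 𝓐.h)) s := by
    have h1 := Run7.h876.MM.xv_diff v (s - 𝓐.h)
    exact DifferentiableAt.comp (f := fun s => s - (𝓐.h : ℂ)) (g := xv v) s h1 (by fun_prop)
  have d2 : DifferentiableAt ℂ (fun s => ell (fun _ => 1) (xv v (s - 𝓐.h))) s :=
    DifferentiableAt.comp (f := fun s => xv v (s - 𝓐.h)) (g := ell (fun _ => 1)) s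
      (ell_diff (a := fun _ => (1 : ℂ)) zero_le_one zero_le_one one_bound hsh) hx2
  unfold ex
  exact (d1.const_mul _).sub (d2.const_mul _)

theorem hv_diff {σ : ℝ} (hσ : 𝓐.h < σ) (k : ℂ) (v : HeightOneSpectrum (𝓞 K)) {s : ℂ}
    (hs : σ ≤ s.re) : DifferentiableAt ℂ (hv 𝓐 k v) s := by
  unfold hv avg
  exact (DifferentiableAt.fun_sum fun t _ => (ex_diff 𝓐 hσ k v t hs).cexp).div_const _

theorem GG_diff (k : ℂ) : DifferentiableOn ℂ (GG 𝓐 k) {s | 𝓐.h + 1 / 2 < s.re} := by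
  classical
  intro s₀ hs₀
  have hs₀' : 𝓐.h + 1 / 2 < s₀.re := hs₀
  set σ : ℝ := (𝓐.h + 1 / 2 + s₀.re) / 2 with hσ
  have hσ1 : 𝓐.h + 1 / 2 < σ := by rw [hσ]; linarith
  have hσ2 : σ < s₀.re := by rw [hσ]; linarith
  obtain ⟨u, hu, hub⟩ := exists_u 𝓐 hσ1 (norm_nonneg k)
  have hopen : IsOpen {s : ℂ | σ < s.re} := isOpen_lt continuous_const Complex.continuous_re
  have hT : TendstoUniformlyOn (fun (F : Finset (HeightOneSpectrum (𝓞 K))) s => ∏ v ∈ F, hv 𝓐 k v s) (GG 𝓐 k) atTop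
      {s : ℂ | σ < s.re} := by
    rw [Metric.tendstoUniformlyOn_iff]
    intro ε hε
    obtain ⟨S, hS⟩ := tail_small hu hε
    filter_upwards [Filter.eventually_ge_atTop S] with F hF s hs
    rw [dist_eq_norm]
    have hs' : σ < s.re := hs
    exact (tail_bound hu (fun v => hub v k s le_rfl hs'.le) F).trans_lt (hS F hF)
  have hd := hT.tendstoLocallyUniformlyOn.differentiableOn (Filter.Eventually.of_forall fun F s hs => by
    have hs' : σ < s.re := hs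
    exact (DifferentiableAt.fun_finsetProd fun v _ => hv_diff 𝓐 (by linarith) k v hs'.le).differentiableWithinAt) hopen
  exact ((hd s₀ hσ2).differentiableAt (hopen.mem_nhds hσ2)).differentiableWithinAt

/-! ### positivity -/

theorem ex_real (k x : ℝ) (v : HeightOneSpectrum (𝓞 K)) (t : J → kv v) :
    ∃ r : ℝ, ex 𝓐 k v x t = (r : ℂ) := by
  classical
  obtain ⟨r1, h1⟩ := ell_real (fun m => 𝓐.a v t m) ((nv v : ℝ) ^ (-x))
  obtain ⟨r2, h2⟩ := ell_real (fun _ => 1) ((nv v : ℝ) ^ (-(x - 𝓐.h)))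
  have e2 : (fun _ : ℕ => (1 : ℂ)) = fun _ => ((1 : ℝ) : ℂ) := by simp
  refine ⟨k * r1 - k * 𝓐.R * r2, ?_⟩
  unfold ex
  rw [xv_real, h1, e2, show ((x : ℝ) : ℂ) - (𝓐.h : ℂ) = ((x - 𝓐.h : ℝ) : ℂ) from by push_cast; ring, xv_real, h2]
  push_cast
  ring

theorem hv_real (k x : ℝ) (v : HeightOneSpectrum (𝓞 K)) :
    ∃ r : ℝ, 0 < r ∧ hv 𝓐 k v (x : ℂ) = (r : ℂ) := by
  classical
  choose r hr using fun t => ex_real 𝓐 k x v t
  refine ⟨(∑ t, Real.exp (r t)) / (Fintype.card (J → kv v)), ?_, ?_⟩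
  · have h1 : 0 < ∑ t, Real.exp (r t) := Finset.sum_pos (fun t _ => Real.exp_pos _) ⟨fun _ => 0, Finset.mem_univ _⟩
    have h2 : (0 : ℝ) < Fintype.card (J → kv v) := by exact_mod_cast Fintype.card_pos
    positivity
  · unfold hv avg
    simp only [hr]
    rw [Finset.card_univ]
    push_cast
    rfl

theorem GG_real (k : ℝ) {x : ℝ} (hx : 𝓐.h + 1 / 2 < x) : ∃ r : ℝ, 0 < r ∧ GG 𝓐 k (x : ℂ) = (r : ℂ) := by
  classical
  obtain ⟨u, hu, hub⟩ := exists_u 𝓐 hx (norm_nonneg (k : ℂ))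
  have hb : ∀ v, ‖hv 𝓐 k v (x : ℂ) - 1‖ ≤ u v := fun v => hub v _ _ le_rfl (by simp)
  have h1 := (mult_of hu hb).hasProd
  choose r hr hr2 using fun v => hv_real 𝓐 k x v
  have hne : GG 𝓐 k (x : ℂ) ≠ 0 := tprod_ne hu hb fun v => by
    rw [hr2 v]; exact_mod_cast (hr v).ne'
  have hprod : ∀ F : Finset (HeightOneSpectrum (𝓞 K)), ∏ v ∈ F, hv 𝓐 k v (x : ℂ) = ((∏ v ∈ F, r v : ℝ) : ℂ) := by
    intro F
    rw [Finset.prod_congr rfl fun v _ => hr2 v]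
    push_cast; rfl
  have hre : Tendsto (fun F : Finset (HeightOneSpectrum (𝓞 K)) => (∏ v ∈ F, r v : ℝ)) atTop
      (𝓝 (GG 𝓐 k (x : ℂ)).re) := by
    have := (Complex.continuous_re.tendsto _).comp h1
    refine this.congr fun F => ?_
    simp only [Function.comp_apply, hprod, Complex.ofReal_re]
  have him : Tendsto (fun _ : Finset (HeightOneSpectrum (𝓞 K)) => (0 : ℝ)) atTop
      (𝓝 (GG 𝓐 k (x : ℂ)).im) := by
    have := (Complex.continuous_im.tendsto _).comp h1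
    refine this.congr fun F => ?_
    simp only [Function.comp_apply, hprod, Complex.ofReal_im]
  have him0 : (GG 𝓐 k (x : ℂ)).im = 0 := tendsto_nhds_unique him tendsto_const_nhds
  have hre0 : 0 ≤ (GG 𝓐 k (x : ℂ)).re := ge_of_tendsto' hre fun F => (Finset.prod_pos fun v _ => hr v).le
  have he : GG 𝓐 k (x : ℂ) = ((GG 𝓐 k (x : ℂ)).re : ℂ) := by
    apply Complex.ext
    · simp
    · simp [him0]
  refine ⟨(GG 𝓐 k (x : ℂ)).re, lt_of_le_of_ne hre0 fun h => hne ?_, he⟩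
  rw [he, ← h]; simp

/-! ### the order at the edge -/

theorem edge {h : ℝ} {G : ℂ → ℂ} (hG : DifferentiableOn ℂ G {s | h + 1 / 2 < s.re})
    (hG2 : ∀ x : ℝ, h + 1 / 2 < x → ∃ r : ℝ, 0 < r ∧ G x = r) (n : ℤ) :
    ∃ c : ℝ, 0 < c ∧ Tendsto (fun x : ℝ => ((x : ℂ) - (h + 1)) ^ n *
      (dedekindZeta K (x - h) ^ n * G x)) (𝓝[>] (h + 1)) (𝓝 (c : ℂ)) := by
  obtain ⟨g, hg0, hg⟩ := hG2 (h + 1) (by norm_num)
  set R := dedekindZeta_residue K with hR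
  have hR0 : 0 < R := dedekindZeta_residue_pos K
  have hRc : (R : ℂ) ≠ 0 := by exact_mod_cast hR0.ne'
  refine ⟨R ^ n * g, by positivity, ?_⟩
  have h1 := tendsto_sub_one_mul_dedekindZeta_nhdsGT K
  have hm : Tendsto (fun x : ℝ => x - h) (𝓝[>] (h + 1)) (𝓝[>] 1) := by
    refine tendsto_nhdsWithin_iff.2 ⟨?_, ?_⟩
    · have : Tendsto (fun x : ℝ => x - h) (𝓝 (h + 1)) (𝓝 (h + 1 - h)) := Continuous.tendsto (by fun_prop) _
      rw [add_sub_cancel_left] at this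
      exact this.mono_left nhdsWithin_le_nhds
    · filter_upwards [self_mem_nhdsWithin] with x hx
      have : h + 1 < x := hx
      show (1 : ℝ) < x - h
      linarith
  have h2 := h1.comp hm
  have h3 : Tendsto (fun x : ℝ => G (x : ℂ)) (𝓝[>] (h + 1)) (𝓝 (g : ℂ)) := by
    have h4 : ContinuousAt G ((h + 1 : ℝ) : ℂ) :=
      (hG.differentiableAt ((isOpen_lt continuous_const Complex.continuous_re).mem_nhds (by simp; norm_num))).continuousAt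
    have h5 : Tendsto (fun x : ℝ => (x : ℂ)) (𝓝[>] (h + 1)) (𝓝 ((h + 1 : ℝ) : ℂ)) :=
      (Complex.continuous_ofReal.tendsto _).mono_left nhdsWithin_le_nhds
    have h6 := h4.tendsto.comp h5
    rw [hg] at h6
    exact h6
  have h4 := (h2.zpow₀ n (Or.inl hRc)).mul h3
  have e : (R : ℂ) ^ n * (g : ℂ) = ((R ^ n * g : ℝ) : ℂ) := by push_cast; ring
  rw [e] at h4
  refine h4.congr fun x => ?_
  simp only [Function.comp_apply]
  rw [mul_zpow]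
  push_cast
  ring_nf

end

end Run7.h61.TA
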